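import Mathlib

set_option autoImplicit false

namespace Pool.Agent.Results.MP_7b4824_gt.NoSuitable

open Filter Topology Set Cardinal Function

/-- suitable set of a topological group (written additively) -/
def Suitable {G : Type} [AddGroup G] [TopologicalSpace G] (S : Set G) : Prop :=
  DiscreteTopology S ∧ IsClosed (S ∪ {0}) ∧ Dense (AddSubgroup.closure S : Set G)

/-- the ordinals below `ω₁` -/
abbrev K := (Ordinal.omega.{0} 1).ToType

/-- the product of `ω₁` copies of `ℤ` -/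
def G := K → ℤ

instance : AddCommGroup G := inferInstanceAs (AddCommGroup (K → ℤ))

/-- the topology whose basic neighbourhoods of `x` are the cosets `x + U_α` -/
instance : TopologicalSpace G where
  IsOpen U := ∀ x ∈ U, ∃ α : K, ∀ y : G, (∀ β < α, y β = x β) → y ∈ U
  isOpen_univ _ _ := ⟨Classical.choice (Ordinal.nonempty_toType_iff.2 (Ordinal.omega_pos 1).ne'), fun _ _ => trivial⟩
  isOpen_inter U V hU hV x hx := by
    obtain ⟨a, ha⟩ := hU x hx.1
    obtain ⟨b, hb⟩ := hV x hx.2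
    exact ⟨max a b, fun y h => ⟨ha y fun i hi => h i (lt_max_of_lt_left hi), hb y fun i hi => h i (lt_max_of_lt_right hi)⟩⟩
  isOpen_sUnion s hs x := fun ⟨U, hU, hx⟩ => (hs U hU x hx).imp fun _ h y hy => ⟨U, hU, h y hy⟩

lemma ub {s : Set K} (h : s.Countable) (f : K → K) : ∃ b, ∀ i ∈ s, f i < b := by
  by_contra! hb
  have := Order.cof_le (s := f '' s) fun b => (hb b).elim fun i hi => ⟨_, ⟨i, hi.1, rfl⟩, hi.2⟩
  rw [Ordinal.cof_toType, ← ord_aleph, isRegular_aleph_one.cof_ord] at this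
  exact aleph0_lt_aleph_one.not_ge (this.trans (le_aleph0_iff_set_countable.2 (h.image f)))

lemma small (b : K) : (Iio b).Countable :=
  le_aleph0_iff_set_countable.1 (lt_aleph_one_iff.1 ((mk_Iio_lt b (by simp)).trans_eq (by simp)))

lemma clo (F : K → K) (b : K) : ∃ l, b < l ∧ ∀ g < l, F g < l := by
  choose u hu using fun a : K => ub ((small a).insert a) fun i => max i (F i)
  let a : ℕ → K := fun n => u^[n] b
  obtain ⟨c, hc⟩ := ub (countable_range a) id
  obtain ⟨l, h1, h2⟩ := wellFounded_lt.has_min {l | ∀ n, a n < l} ⟨c, fun n => hc _ ⟨n, rfl⟩⟩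
  refine ⟨l, h1 0, fun g hg => ?_⟩
  obtain ⟨n, hn⟩ : ∃ n, g ≤ a n := by
    by_contra! h
    exact h2 g h hg
  refine lt_trans ?_ (h1 (n + 1))
  exact (le_max_right _ _).trans_lt ((hu (a n) g (hn.eq_or_lt)).trans_eq (iterate_succ_apply' u n b).symm)

lemma ladder : ∃ L : K → Set K, ∀ l, L l ⊆ Iio l ∧ (∀ g < l, (L l ∩ Iio g).Finite) ∧
    ∀ g j, g < j → j < l → ∃ i ∈ L l, g < i := by
  choose f hf using fun l => countable_iff_exists_injOn.1 (small l)
  refine ⟨fun l => {j | j < l ∧ ∀ i, j < i → i < l → f l j < f l i}, fun l => ⟨fun _ h => h.1, fun g hg =>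
    Finite.of_finite_image ((finite_Iio (f l g)).subset ?_) ((hf l).mono fun _ h => h.1.1), fun g j h1 h2 => ?_⟩⟩
  · rintro _ ⟨j, h, rfl⟩; exact h.1.2 g h.2 hg
  · obtain ⟨i, h3, h4⟩ := (InvImage.wf (f l) wellFounded_lt).has_min (Ioo g l) ⟨j, h1, h2⟩
    exact ⟨i, ⟨h3.2, fun k h5 h6 => (not_lt.1 (h4 k ⟨h3.1.trans h5, h6⟩)).lt_of_ne
      fun e => h5.ne (hf l h3.2 h6 e)⟩, h3.1⟩

def Acc (x : G) : Set K := {l | ∀ g < l, ∃ j, g < j ∧ j < l ∧ x j ≠ 0}

lemma acc_add (x y : G) : Acc (x + y) ⊆ Acc x ∪ Acc y := fun l h => by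
  by_contra hn
  simp only [Acc, mem_union, mem_ofPred_eq, not_or, not_forall, not_exists, not_and, not_not] at hn
  obtain ⟨⟨a, h1, h2⟩, b, h3, h4⟩ := hn
  obtain ⟨j, h5, h6, h7⟩ := h (max a b) (max_lt h1 h3)
  rw [max_lt_iff] at h5
  exact h7 (congrArg₂ (· + ·) (h2 j h5.1 h6) (h4 j h5.2 h6))

lemma acc_neg (x : G) : Acc (-x) ⊆ Acc x := fun _ h g hg => (h g hg).imp fun _ h => ⟨h.1, h.2.1, neg_ne_zero.1 h.2.2⟩

noncomputable def ind (A : Set K) : G := A.indicator 1

lemma acc_ind {A : Set K} {l : K} (h : l ∈ Acc (ind A)) (hf : (A ∩ Iio l).Finite) : IsMin l := by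
  by_contra h0
  obtain ⟨g, hg⟩ := not_isMin_iff.1 h0
  obtain ⟨m, h1, h2⟩ := exists_max_image _ id (hf.insert g) (insert_nonempty _ _)
  obtain ⟨j, h3, h4, h5⟩ := h m (h1.elim (· ▸ hg) (·.2))
  exact h3.not_ge (h2 j (.inr ⟨mem_of_indicator_ne_zero h5, h4⟩))

noncomputable def cut (g : K) (x : G) : G := (Iio g).indicator x

theorem result : ∃ H : AddSubgroup G, (∀ x ∈ H, {i : K | x i ≠ 0}.Countable) ∧ ∀ S : Set H, ¬ Suitable S := by
  obtain ⟨L, hL⟩ := ladder
  let T : Set K → Set G := fun s => ind '' {A | A.Finite ∧ A ⊆ s} ∪ (fun l => ind (L l)) '' {l | Iio l ⊆ s}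
  let H := AddSubgroup.closure (T univ)
  have mn : {l : K | IsMin l}.Finite := Subsingleton.finite fun a ha b hb =>
    (le_total a b).elim (fun h => h.antisymm (hb h)) fun h => (ha h).antisymm h
  have P : ∀ x ∈ H, {i : K | x i ≠ 0}.Countable ∧ (Acc x).Finite ∧
      ∀ g, cut g x ∈ AddSubgroup.closure (T (Iio g)) := fun x hx => by
    induction hx using AddSubgroup.closure_induction with
    | mem x hx =>
      have c : ∀ g A, cut g (ind A) = ind (A ∩ Iio g) := fun g A => by
        rw [inter_comm]; exact indicator_indicator _ _ _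
      obtain ⟨A, h, rfl⟩ | ⟨l, -, rfl⟩ := hx
      · exact ⟨h.1.countable.mono support_indicator_subset, mn.subset fun l hl => acc_ind hl (h.1.inter_of_left _),
          fun g => AddSubgroup.subset_closure (.inl ⟨_, ⟨h.1.inter_of_left _, inter_subset_right⟩, (c _ _).symm⟩)⟩
      · refine ⟨(small l).mono (support_indicator_subset.trans (hL l).1), (mn.insert l).subset fun m hm => ?_,
          fun g => AddSubgroup.subset_closure ?_⟩
        · rcases lt_trichotomy m l with h | h | h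
          · exact .inr (acc_ind hm ((hL l).2.1 m h))
          · exact .inl h
          · obtain ⟨j, h1, -, h2⟩ := hm l h
            exact (h1.not_gt ((hL l).1 (mem_of_indicator_ne_zero h2))).elim
        · rcases lt_or_ge g l with h | h
          · exact .inl ⟨_, ⟨(hL l).2.1 g h, inter_subset_right⟩, (c _ _).symm⟩
          · exact .inr ⟨l, Iio_subset_Iio h, by
              simp only [c, inter_eq_left.2 ((hL l).1.trans (Iio_subset_Iio h))]⟩
    | zero => exact ⟨countable_empty.mono fun _ h => h rfl, mn.subset fun l hl => not_not.1 fun h =>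
        (not_isMin_iff.1 h).elim fun g hg => (hl g hg).elim fun _ h => h.2.2 rfl,
        fun g => (show cut g 0 = 0 from indicator_zero' _).symm ▸ zero_mem _⟩
    | add x y _ _ h1 h2 => exact ⟨(h1.1.union h2.1).mono (support_add _ _), (h1.2.1.union h2.2.1).subset (acc_add x y),
        fun g => (indicator_add' (Iio g) x y ▸ add_mem (h1.2.2 g) (h2.2.2 g) : (Iio g).indicator (x + y) ∈ _)⟩
    | neg x _ h => exact ⟨h.1.mono (support_neg x).le, h.2.1.subset (acc_neg x),
        fun g => (indicator_neg' (Iio g) x ▸ neg_mem (h.2.2 g) : (Iio g).indicator (-x) ∈ _)⟩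
  have sub : ∀ g, AddSubgroup.closure (T (Iio g)) ≤ H := fun g => AddSubgroup.closure_mono
    (union_subset_union (image_mono fun _ h => ⟨h.1, subset_univ _⟩) (image_mono fun _ _ => subset_univ _))
  have cnt : ∀ g, (AddSubgroup.closure (T (Iio g)) : Set G).Countable := fun g => by
    have : Countable (T (Iio g)) := ((countable_ofPred_finite_subset (small g)).image _).union
      ((((small g).insert g).mono fun l h => (Iio_subset_Iio_iff.1 h).eq_or_lt).image _)
    have : Countable (Submodule.span ℤ (range (Subtype.val : T (Iio g) → G))) := inferInstance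
    rw [Subtype.range_coe] at this
    rw [← Submodule.span_int_eq_addSubgroupClosure]
    exact this
  have bdd : ∀ D : Set H, (∀ x : H, ∃ a, ∀ y ∈ D, (∀ i < a, y.1 i = x.1 i) → y = x) →
      ∃ b, ∀ s ∈ D, ∀ i, s.1 i ≠ 0 → i < b := fun D h => by
    choose B hB using h
    have : ∀ g, ∃ b, ∀ y : H, y.1 ∈ AddSubgroup.closure (T (Iio g)) → B y < b := fun g => by
      obtain ⟨b, hb⟩ := ub (((cnt g).preimage Subtype.val_injective).image B) id
      exact ⟨b, fun y hy => hb _ ⟨y, hy, rfl⟩⟩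
    choose F hF using this
    choose u hu using fun a : K => ub (countable_singleton a) id
    choose c hc using clo fun g => max (u g) (F (u g))
    have sm : ∀ a, StrictMono fun n => c^[n + 1] a := fun a =>
      strictMono_nat_of_lt_succ fun n => ((hc _).1).trans_eq (iterate_succ_apply' c _ a).symm
    obtain ⟨a⟩ : Nonempty K := Ordinal.nonempty_toType_iff.2 (Ordinal.omega_pos 1).ne'
    obtain ⟨b, hb⟩ := ub (countable_range fun n => c^[n + 1] a) id
    refine ⟨b, fun s hs i hi => not_le.1 fun h => (infinite_range_of_injective (sm a).injective)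
      ((P _ s.2).2.1.subset ?_)⟩
    rintro _ ⟨n, rfl⟩ g hg
    have h1 := hb _ ⟨n, rfl⟩
    simp only [iterate_succ_apply', id] at hg h1 ⊢
    have h2 := max_lt_iff.1 ((hc _).2 g hg)
    by_contra! hn
    have e := hB ⟨_, sub _ ((P _ s.2).2.2 (u g))⟩ s hs fun j hj => (lt_or_ge j (u g)).elim
      (fun h => (indicator_of_mem (s := Iio (u g)) h _).symm) fun h =>
        (hn j ((hu g g rfl).trans_le h) ((hj.trans (hF _ _ ((P _ s.2).2.2 _))).trans h2.2)).trans
          (indicator_of_notMem (s := Iio (u g)) h.not_gt _).symm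
    exact hi ((congrFun (congrArg Subtype.val e) i).trans
      (indicator_of_notMem (s := Iio (u g)) ((h2.1.trans h1).le.trans h).not_gt _))
  have nb : ∀ (x : H) U, U ∈ 𝓝 x → ∃ a, ∀ y : H, (∀ i < a, y.1 i = x.1 i) → y ∈ U := fun x U h => by
    obtain ⟨V, h1, h2⟩ := (mem_nhds_subtype _ _ _).1 h
    obtain ⟨W, h3, h4, h5⟩ := mem_nhds_iff.1 h1
    exact (h4 _ h5).imp fun a h y hy => h2 (h3 (h _ hy))
  refine ⟨H, fun x hx => (P x hx).1, fun S ⟨h1, h2, h3⟩ => ?_⟩
  choose F hF using fun α => bdd (S \ {y | ∀ i < α, y.1 i = 0}) fun x => by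
    by_cases hx : ∀ i < α, x.1 i = 0
    · exact ⟨α, fun y hy h => (hy.2 fun i hi => (h i hi).trans (hx i hi)).elim⟩
    by_cases hS : x ∈ S
    · obtain ⟨U, hU, h⟩ := nhds_inter_eq_singleton_of_mem_discrete (isDiscrete_iff_discreteTopology.2 h1) hS
      exact (nb x U hU).imp fun β hβ y hy h' => h.le ⟨hβ y h', hy.1⟩
    · exact (nb x _ (h2.isOpen_compl.mem_nhds (show x ∉ S ∪ {0} by
        rintro (h | rfl); exacts [hS h, hx fun _ _ => rfl]))).imp fun β hβ y hy h => (hβ y h (Or.inl hy.1)).elim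
  choose u hu using fun a : K => ub (countable_singleton a) id
  obtain ⟨a⟩ : Nonempty K := Ordinal.nonempty_toType_iff.2 (Ordinal.omega_pos 1).ne'
  obtain ⟨l, l1, l2⟩ := clo (fun g => max (u g) (F (u g))) a
  obtain ⟨y, y1, y2⟩ := h3.inter_open_nonempty {y | ∀ i < l, y.1 i = ind (L l) i}
    (isOpen_induced (s := {y : G | ∀ i < l, y i = ind (L l) i})
      fun x hx => ⟨l, fun y hy i hi => (hy i hi).trans (hx i hi)⟩)
    ⟨⟨_, AddSubgroup.subset_closure (.inr ⟨l, subset_univ _, rfl⟩)⟩, fun _ _ => rfl⟩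
  refine AddSubgroup.closure_induction (p := fun y _ => l ∉ Acc y.1) (fun s hs h => ?_)
    (fun h => (h a l1).elim fun _ h => h.2.2 rfl) (fun x y _ _ h1 h2 h => (acc_add _ _ h).elim h1 h2)
    (fun x _ h1 h => h1 (acc_neg _ h)) y2 fun g hg => ?_
  · obtain ⟨i, -, i1, i2⟩ := h a l1
    obtain ⟨j, j1, -, j2⟩ := h _ (max_lt_iff.1 (l2 i i1)).2
    exact j1.not_gt (hF (u i) s ⟨hs, fun h => i2 (h i (hu i i rfl))⟩ j j2)
  · obtain ⟨i, i1, i2⟩ := (hL l).2.2 g (u g) (hu g g rfl) (max_lt_iff.1 (l2 g hg)).1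
    exact ⟨i, i2, (hL l).1 i1, ((y1 i ((hL l).1 i1)).trans (indicator_of_mem i1 _)).trans_ne one_ne_zero⟩

end Pool.Agent.Results.MP_7b4824_gt.NoSuitable
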